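import Mathlib
import Pool.Agent.H964.LF.Stm

/-!
Project LF (helper964): the final step.
-/

set_option autoImplicit false

namespace Pool.Agent.H100.LF

open Pool.Agent.H964.LF MeasureTheory Filter Topology
open scoped ENNReal

noncomputable section

/-- the maximum above the origin -/
def MM {d n : ℕ} (ψ : Tor d n → ℝ) : ℝ := (⨆ x, ψ x) - ψ 0

theorem measurable_MM (d n : ℕ) : Measurable (MM : (Tor d n → ℝ) → ℝ) := by
  unfold MM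
  exact (Measurable.iSup fun x => measurable_pi_apply x).sub (measurable_pi_apply 0)

theorem MM_shift {d n : ℕ} (ψ : Tor d n → ℝ) (c : ℝ) : MM (fun v => ψ v + c) = MM ψ := by
  unfold MM
  rw [← ciSup_add (Set.finite_range ψ).bddAbove]
  ring

theorem vl_mono {d n : ℕ} (p : Tor d n) {E E' : Set (Tor d n → ℝ)} (h : E ⊆ E') :
    vl p E ≤ vl p E' := by
  unfold vl
  exact measure_mono fun ψ hψ => ⟨hψ.1, hψ.2.1, h hψ.2.2⟩

theorem vl_union {d n : ℕ} (p : Tor d n) (E E' : Set (Tor d n → ℝ)) :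
    vl p (E ∪ E') ≤ vl p E + vl p E' := by
  unfold vl
  refine le_trans (measure_mono ?_) (measure_union_le _ _)
  intro ψ hψ
  rcases hψ.2.2 with h | h
  · exact Or.inl ⟨hψ.1, hψ.2.1, h⟩
  · exact Or.inr ⟨hψ.1, hψ.2.1, h⟩

/-- the ratio for one side length -/
theorem ratio (hPIN : S_PIN) (d n : ℕ) (a b : ℝ) :
    (volume {ψ : (Fin d → ZMod (2 * n + 2)) → ℝ |
            0 ≤ ψ 0 ∧ ψ 0 ≤ 1 ∧
            (∀ x : Fin d → ZMod (2 * n + 2), ∀ i : Fin d,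
              |ψ (x + (Pi.single i 1 : Fin d → ZMod (2 * n + 2))) - ψ x| ≤ 1) ∧
            a ≤ (⨆ x, ψ x) - ψ 0 ∧ (⨆ x, ψ x) - ψ 0 ≤ b}).toReal /
        (volume {ψ : (Fin d → ZMod (2 * n + 2)) → ℝ |
            0 ≤ ψ 0 ∧ ψ 0 ≤ 1 ∧
            (∀ x : Fin d → ZMod (2 * n + 2), ∀ i : Fin d,
              |ψ (x + (Pi.single i 1 : Fin d → ZMod (2 * n + 2))) - ψ x| ≤ 1)}).toReal ≤ 1 ∧
    1 - (vl (0 : Tor d n) {ψ | (⨆ x, ψ x) - ψ 0 < a}).toReal /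
      (vl (0 : Tor d n) Set.univ).toReal - (vl (0 : Tor d n) {ψ | b < (⨆ x, ψ x) - ψ 0}).toReal /
      (vl (0 : Tor d n) Set.univ).toReal ≤
    (volume {ψ : (Fin d → ZMod (2 * n + 2)) → ℝ |
            0 ≤ ψ 0 ∧ ψ 0 ≤ 1 ∧
            (∀ x : Fin d → ZMod (2 * n + 2), ∀ i : Fin d,
              |ψ (x + (Pi.single i 1 : Fin d → ZMod (2 * n + 2))) - ψ x| ≤ 1) ∧
            a ≤ (⨆ x, ψ x) - ψ 0 ∧ (⨆ x, ψ x) - ψ 0 ≤ b}).toReal /
        (volume {ψ : (Fin d → ZMod (2 * n + 2)) → ℝ |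
            0 ≤ ψ 0 ∧ ψ 0 ≤ 1 ∧
            (∀ x : Fin d → ZMod (2 * n + 2), ∀ i : Fin d,
              |ψ (x + (Pi.single i 1 : Fin d → ZMod (2 * n + 2))) - ψ x| ≤ 1)}).toReal := by
  obtain ⟨hpin, hfin⟩ := hPIN d n
  set E : Set (Tor d n → ℝ) := {ψ | a ≤ MM ψ ∧ MM ψ ≤ b} with hE
  have hEm : MeasurableSet E :=
    (measurableSet_le measurable_const (measurable_MM d n)).inter
      (measurableSet_le (measurable_MM d n) measurable_const)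
  have hEs : ∀ ψ ∈ E, ∀ c : ℝ, (fun v => ψ v + c) ∈ E := by
    intro ψ hψ c
    have h1 : a ≤ MM (fun v => ψ v + c) ∧ MM (fun v => ψ v + c) ≤ b := by
      rw [MM_shift]
      exact hψ
    exact h1
  have e1 : volume {ψ : (Fin d → ZMod (2 * n + 2)) → ℝ |
            0 ≤ ψ 0 ∧ ψ 0 ≤ 1 ∧
            (∀ x : Fin d → ZMod (2 * n + 2), ∀ i : Fin d,
              |ψ (x + (Pi.single i 1 : Fin d → ZMod (2 * n + 2))) - ψ x| ≤ 1) ∧
            a ≤ (⨆ x, ψ x) - ψ 0 ∧ (⨆ x, ψ x) - ψ 0 ≤ b} = vl (0 : Tor d n) E :=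
    (hpin E hEm hEs).2.symm
  have e2 : volume {ψ : (Fin d → ZMod (2 * n + 2)) → ℝ |
            0 ≤ ψ 0 ∧ ψ 0 ≤ 1 ∧
            (∀ x : Fin d → ZMod (2 * n + 2), ∀ i : Fin d,
              |ψ (x + (Pi.single i 1 : Fin d → ZMod (2 * n + 2))) - ψ x| ≤ 1)} =
      vl (0 : Tor d n) Set.univ := by
    rw [(hpin Set.univ MeasurableSet.univ fun _ _ _ => Set.mem_univ _).2]
    have : {ψ : (Fin d → ZMod (2 * n + 2)) → ℝ |
            0 ≤ ψ 0 ∧ ψ 0 ≤ 1 ∧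
            (∀ x : Fin d → ZMod (2 * n + 2), ∀ i : Fin d,
              |ψ (x + (Pi.single i 1 : Fin d → ZMod (2 * n + 2))) - ψ x| ≤ 1)} =
        {ψ : Tor d n → ℝ | 0 ≤ ψ 0 ∧ ψ 0 ≤ 1 ∧ Lip ψ ∧ ψ ∈ Set.univ} := by
      ext ψ
      exact ⟨fun h => ⟨h.1, h.2.1, h.2.2, Set.mem_univ _⟩, fun h => ⟨h.1, h.2.1, h.2.2.1⟩⟩
    rw [this]
  rw [e1, e2]
  obtain ⟨h0, htop⟩ := hfin (0 : Tor d n)
  have hpos : 0 < (vl (0 : Tor d n) Set.univ).toReal := ENNReal.toReal_pos h0 htop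
  have hlt : ∀ A : Set (Tor d n → ℝ), vl (0 : Tor d n) A ≠ ⊤ := fun A =>
    ne_top_of_le_ne_top htop (vl_mono 0 (Set.subset_univ A))
  have hle : vl (0 : Tor d n) Set.univ ≤ vl (0 : Tor d n) E +
      (vl (0 : Tor d n) {ψ | (⨆ x, ψ x) - ψ 0 < a} +
        vl (0 : Tor d n) {ψ | b < (⨆ x, ψ x) - ψ 0}) := by
    refine le_trans (vl_mono 0 (E' := E ∪ ({ψ | (⨆ x, ψ x) - ψ 0 < a} ∪
      {ψ | b < (⨆ x, ψ x) - ψ 0})) ?_) ((vl_union 0 _ _).trans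
        (add_le_add le_rfl (vl_union 0 _ _)))
    intro ψ _
    by_cases h1 : a ≤ MM ψ
    · by_cases h2 : MM ψ ≤ b
      · exact Or.inl ⟨h1, h2⟩
      · exact Or.inr (Or.inr (not_le.mp h2))
    · exact Or.inr (Or.inl (not_le.mp h1))
  have hleR : (vl (0 : Tor d n) Set.univ).toReal ≤ (vl (0 : Tor d n) E).toReal +
      ((vl (0 : Tor d n) {ψ | (⨆ x, ψ x) - ψ 0 < a}).toReal +
        (vl (0 : Tor d n) {ψ | b < (⨆ x, ψ x) - ψ 0}).toReal) := by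
    rw [← ENNReal.toReal_add (hlt _) (hlt _), ← ENNReal.toReal_add (hlt _)
      (ENNReal.add_ne_top.mpr ⟨hlt _, hlt _⟩)]
    exact ENNReal.toReal_mono (ENNReal.add_ne_top.mpr ⟨hlt _,
      ENNReal.add_ne_top.mpr ⟨hlt _, hlt _⟩⟩) hle
  refine ⟨?_, ?_⟩
  · rw [div_le_one hpos]
    exact ENNReal.toReal_mono htop (vl_mono 0 (Set.subset_univ E))
  · rw [sub_sub, ← add_div, sub_le_iff_le_add, ← add_div, one_le_div hpos]
    exact hleR

theorem t_FIN : S_LOW → S_UPP → S_PIN → S_FIN := by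
  intro hLOW hUPP hPIN d hd
  obtain ⟨c, hc, hlow⟩ := hLOW d hd
  obtain ⟨C, hC, hupp⟩ := hUPP d hd
  refine ⟨c, C, hc, hC, ?_⟩
  have h1 : Tendsto (fun n : ℕ => 1 - (vl (0 : Tor d n)
      {ψ | (⨆ x, ψ x) - ψ 0 < c * Real.log ((n : ℝ) + 1) ^ ((1 : ℝ) / d)}).toReal /
      (vl (0 : Tor d n) Set.univ).toReal - (vl (0 : Tor d n)
      {ψ | C * Real.log ((n : ℝ) + 1) ^ ((1 : ℝ) / d) < (⨆ x, ψ x) - ψ 0}).toReal /
      (vl (0 : Tor d n) Set.univ).toReal) atTop (𝓝 1) := by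
    have h2 := (tendsto_const_nhds (x := (1 : ℝ))).sub hlow
    have h3 := h2.sub hupp
    rw [sub_zero, sub_zero] at h3
    exact h3
  exact tendsto_of_tendsto_of_tendsto_of_le_of_le h1 tendsto_const_nhds
    (fun n => (ratio hPIN d n _ _).2) (fun n => (ratio hPIN d n _ _).1)

end

end Pool.Agent.H100.LF
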